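import Mathlib
import Pool.Agent.TH668.Orf.F6
import Pool.Agent.W943.Ork6

/-!
Polynomials in the jets of few formulas; sums of unboundedly many polynomials in few formulas with a
thin system of sets of variables.
-/

set_option autoImplicit false

namespace Pool.Agent.TH668.Thin

open MvPolynomial Module Pool.Agent.H530R2 Pool.Agent.W943 Pool.Agent.TH668.Orf

section few

variable {F : Type} [Field F] [CharZero F] {n : ℕ}

/-- nonzero polynomials in the variables of a set `Z` -/
theorem notMem_of_supported (V : DChain F n) {Z : Finset (Fin n)} {g : MvPolynomial (Fin n) F}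
    (hg : g ∈ supported F (Z : Set (Fin n))) (h0 : g ≠ 0) : g ∉ V.I Z.card := by
  classical
  set t : Fin Z.card → Fin n := fun a => (Z.equivFin.symm a : Fin n) with ht
  have htinj : Function.Injective t := fun a b h =>
    Z.equivFin.symm.injective (Subtype.ext h)
  have hrange : Set.range (fun a => (X (t a) : MvPolynomial (Fin n) F)) =
      X '' (Z : Set (Fin n)) := by
    ext x
    constructor
    · rintro ⟨a, rfl⟩
      exact ⟨t a, (Z.equivFin.symm a).2, rfl⟩
    · rintro ⟨i, hi, rfl⟩
      exact ⟨Z.equivFin ⟨i, hi⟩, by simp [ht]⟩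
  have hg' : g ∈ Algebra.adjoin F (Set.range (fun a => (X (t a) : MvPolynomial (Fin n) F))) := by
    rw [hrange]
    exact hg
  rw [Algebra.adjoin_range_eq_range_aeval] at hg'
  obtain ⟨Ψ, hΨ⟩ := hg'
  have hind : AlgebraicIndependent F (fun a => (X (t a) : MvPolynomial (Fin n) F)) :=
    (MvPolynomial.algebraicIndependent_X (Fin n) F).comp t htinj
  have hΨ0 : Ψ ≠ 0 := by
    rintro rfl
    exact h0 (by rw [← hΨ]; exact map_zero _)
  have h1 := V.comp_algInd (fun a => X (t a)) hind 0 (fun κ hdet hmem => hdet ?_) hΨ0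
  · rw [Nat.zero_add] at h1
    rw [← hΨ]
    exact h1
  · have h2 : (Matrix.of fun a b => pderiv (κ b) (X (t a) : MvPolynomial (Fin n) F)) =
        (Matrix.of fun a b => if κ b = t a then (1 : F) else 0).map C := by
      ext1 a b
      simp only [Matrix.of_apply, Matrix.map_apply]
      by_cases h : κ b = t a
      · rw [if_pos h, h, pderiv_X_self, C_1]
      · rw [if_neg h, pderiv_X_of_ne (Ne.symm h), C_0]
    have h3 : (Matrix.of fun a b => pderiv (κ b) (X (t a) : MvPolynomial (Fin n) F)).det =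
        C (Matrix.of fun a b => if κ b = t a then (1 : F) else 0).det := by
      rw [h2, RingHom.map_det]
      rfl
    rw [h3] at hmem ⊢
    rw [V.const_mem hmem, C_0]

end few

section jets

variable {F : Type} [Field F] [CharZero F]

/-- Polynomials in the jets of `N` formulas. -/
theorem jetsO (𝔎 : FamO F) (K W0 N r : ℕ) : ∃ m : ℕ, ∀ (n : ℕ) (V : DChain F n) (t : ℕ)
    (T : Fin N → Tr F n) (τ : Fin r → Fin n) (f : MvPolynomial (Fin n) F),
    (∀ i, Gd (𝔎.K n W0) K (T i)) → (∀ i, (T i).rk ≤ t) →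
    f ∈ Algebra.adjoin F (⋃ q, Set.range (jet τ (T q).val r)) → f ≠ 0 →
    f ∉ V.I (m * (t + 1)) := by
  classical
  obtain ⟨m, hm, hV⟩ := ValO.all F (cst 𝔎) W0 K K
  set p' := (CstO.trees F K K 1 W0 (cst 𝔎) N).1 with hp'
  set Wj := p'.dW (CstO.tv F K K 1 W0 (cst 𝔎) N) r with hWj
  set R := N * (r + 1) ^ r with hR
  set M := ∑ ρ ∈ Finset.range (R + 1), (p'.sd (p'.dt (p'.der Wj) ρ) + 1) with hM
  refine ⟨M * m + R, ?_⟩
  intro n V t T τ f hG ht hf h0 hmem
  have hs : 1 ≤ m * (t + 1) := Nat.mul_pos hm (Nat.succ_pos t)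
  obtain ⟨𝔏', _, h2⟩ := ((ofFam 𝔎 V).scale (m * (t + 1)) hs).trees K K 1 W0 N T hG
    (fun q i _ => (hG q).2.2 i) (fun q => Rgo.ofVal hs (hV n V (ofFam 𝔎 V) t) (hG q) (ht q))
  have hcard : Fintype.card (Fin N × JI r r) = R := by
    rw [Fintype.card_prod, Fintype.card_fin, JI.card]
  set e : Fin N × JI r r ≃ Fin R := (Fintype.equivFin _).trans (finCongr hcard) with he
  set g : Fin R → MvPolynomial (Fin n) F := fun a =>
    jet τ (T (e.symm a).1).val r (e.symm a).2 with hg
  have hgmem : ∀ a, g a ∈ 𝔏'.K Wj := fun a => 𝔏'.jet_mem τ (h2 _) _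
  have hf' : f ∈ Algebra.adjoin F (Set.range g) := by
    refine Algebra.adjoin_mono ?_ hf
    intro x hx
    obtain ⟨q, y, rfl⟩ := Set.mem_iUnion.1 hx
    exact ⟨e (q, y), by simp [hg]⟩
  rw [Algebra.adjoin_range_eq_range_aeval] at hf'
  obtain ⟨Φ, rfl⟩ := hf'
  have h0' : aeval g Φ ≠ 0 := h0
  refine V.comp_trdeg g R (M * (m * (t + 1))) ?_ ?_ h0' (V.mono ?_ hmem)
  · intro s hs'
    have h3 := Fintype.card_le_of_injective s (fun a b hab => hs'.injective (by
      show g (s a) = g (s b)
      rw [hab]))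
    rw [Fintype.card_fin, Fintype.card_fin] at h3
    omega
  · intro ρ κ s hρ hdet hmem'
    apply hdet
    refine 𝔏'.seeds _ _ (𝔏'.det_mem (W := p'.der Wj) (Q := ρ) le_rfl
      fun a b => 𝔏'.der_mem _ (hgmem _)) ∅ le_rfl ?_
    rw [O_empty]
    refine V.mono ?_ hmem'
    show (p'.sd (p'.dt (p'.der Wj) ρ) + 1) * (m * (t + 1)) ≤ M * (m * (t + 1))
    refine Nat.mul_le_mul_right _ ?_
    exact Finset.single_le_sum (f := fun ρ => p'.sd (p'.dt (p'.der Wj) ρ) + 1)
      (fun _ _ => Nat.zero_le _) (Finset.mem_range.2 (Nat.lt_succ_of_le hρ))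
  · have h1 : (M * m + R) * (t + 1) = M * (m * (t + 1)) + R * (t + 1) := by ring
    rw [h1]
    exact Nat.add_le_add_left (Nat.le_mul_of_pos_right _ (Nat.succ_pos t)) _

end jets

section thin

variable {F : Type} [Field F] {n : ℕ}

theorem dl_eq_zero {L : List (Fin n)} {i : Fin n} (hi : i ∈ L) {g : MvPolynomial (Fin n) F}
    (h : pderiv i g = 0) : dl L g = 0 := by
  induction L generalizing g with
  | nil => exact absurd hi List.not_mem_nil
  | cons k L ih =>
    rw [dl_cons]
    rcases List.mem_cons.1 hi with rfl | hi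
    · rw [h, dl_zero]
    · refine ih hi ?_
      rw [← pderiv_comm', h, map_zero]

theorem dl_sum {ι : Type*} (L : List (Fin n)) (s : Finset ι) (g : ι → MvPolynomial (Fin n) F) :
    dl L (∑ i ∈ s, g i) = ∑ i ∈ s, dl L (g i) := by
  induction L generalizing g with
  | nil => rfl
  | cons k L ih =>
    rw [dl_cons, map_sum, ih]
    rfl

theorem dl_mem (V : DChain F n) (L : List (Fin n)) {j : ℕ} {g : MvPolynomial (Fin n) F}
    (h : g ∈ V.I (j + L.length)) : dl L g ∈ V.I j := by
  induction L generalizing g with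
  | nil => exact h
  | cons k L ih =>
    rw [dl_cons]
    exact ih (V.der _ _ _ h)

/-- derivatives of polynomials in formulas are polynomials in the jets -/
theorem dl_jets {w ρ : ℕ} (T : Fin w → MvPolynomial (Fin n) F) (κ : Fin ρ → Fin n)
    (L : List (Fin n)) (hL : ∀ i ∈ L, i ∈ Set.range κ) (l : ℕ) {g : MvPolynomial (Fin n) F}
    (hg : g ∈ Algebra.adjoin F (⋃ q, Set.range (jet κ (T q) l))) :
    dl L g ∈ Algebra.adjoin F (⋃ q, Set.range (jet κ (T q) (l + L.length))) := by
  induction L generalizing g l with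
  | nil => exact hg
  | cons k L ih =>
    rw [dl_cons, List.length_cons]
    have h1 : pderiv k g ∈ Algebra.adjoin F (⋃ q, Set.range (jet κ (T q) (l + 1))) := by
      refine pderiv_mem_of_adjoin k ?_ ?_ hg
      · intro x hx
        obtain ⟨q, hq⟩ := Set.mem_iUnion.1 hx
        exact Algebra.subset_adjoin (Set.mem_iUnion.2 ⟨q, jet_range_succ _ _ _ hq⟩)
      · intro x hx
        obtain ⟨q, hq⟩ := Set.mem_iUnion.1 hx
        obtain ⟨a, rfl⟩ := hL k List.mem_cons_self
        exact Algebra.subset_adjoin (Set.mem_iUnion.2 ⟨q, jet_pderiv κ (T q) l a hq⟩)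
    have h2 := ih (fun i hi => hL i (List.mem_cons_of_mem _ hi)) (l + 1) h1
    rwa [show l + 1 + L.length = l + (L.length + 1) by omega] at h2

variable [CharZero F]

/-- Polynomials without derivatives in `r` different variables outside of `S`. -/
theorem few_notMem (V : DChain F n) (S : Finset (Fin n)) (r : ℕ) {f : MvPolynomial (Fin n) F}
    (h0 : f ≠ 0) (h : ∀ L : List (Fin n), L.Nodup → (∀ i ∈ L, i ∉ S) → L.length = r →
      dl L f = 0) : f ∉ V.I (2 * r + S.card) := by
  classical
  set P : ℕ → Prop := fun q => ∃ L : List (Fin n), L.Nodup ∧ (∀ i ∈ L, i ∉ S) ∧ L.length = q ∧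
    dl L f ≠ 0 with hP
  have hP0 : P 0 := ⟨[], List.nodup_nil, by simp, rfl, h0⟩
  have hPr : ∀ q, P q → q < r := by
    rintro q ⟨L, h1, h2, h3, h4⟩
    by_contra hc
    push Not at hc
    apply h4
    rw [← List.take_append_drop r L, dl_append]
    rw [h (L.take r) (h1.sublist (List.take_sublist r L))
      (fun i hi => h2 i (List.mem_of_mem_take hi)) (by rw [List.length_take]; omega), dl_zero]
  set q := Nat.findGreatest P r with hq
  have hPq : P q := Nat.findGreatest_spec (P := P) (Nat.zero_le r) hP0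
  have hqr := hPr q hPq
  have hmax : ¬ P (q + 1) := by
    intro h
    have h1 := Nat.le_findGreatest (P := P) (hPr _ h).le h
    omega
  obtain ⟨L, h1, h2, h3, h4⟩ := hPq
  intro hmem
  set Z : Finset (Fin n) := L.toFinset ∪ S with hZ
  have hsupp : dl L f ∈ supported F (Z : Set (Fin n)) := by
    apply supported_of_pderiv
    intro k hk
    rw [hZ, Finset.mem_union, List.mem_toFinset, not_or] at hk
    by_contra hne
    apply hmax
    refine ⟨k :: L, List.nodup_cons.2 ⟨hk.1, h1⟩, ?_, by rw [List.length_cons, h3], ?_⟩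
    · intro i hi
      rcases List.mem_cons.1 hi with rfl | hi
      · exact hk.2
      · exact h2 i hi
    · rw [dl_cons, dl_pderiv]
      exact hne
  have hZc : Z.card ≤ q + S.card := by
    refine (Finset.card_union_le _ _).trans (Nat.add_le_add_right ?_ _)
    exact (List.toFinset_card_le L).trans h3.le
  refine notMem_of_supported V hsupp h4 (V.mono ?_ (dl_mem V L (j := 2 * r + S.card - q) ?_))
  · omega
  · rw [h3]
    have : 2 * r + S.card - q + q = 2 * r + S.card := by omega
    rwa [this]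

/-- Thin sums: any number of polynomials in `w` formulas, such that, outside of `S`, any `r`
variables occur together in at most `κ` summands. -/
theorem thinO (𝔎 : FamO F) (K W0 w κ r c : ℕ) : ∃ m : ℕ, ∀ (n : ℕ) (V : DChain F n) (t : ℕ)
    (ι : Type) (_ : Fintype ι) (T : ι → Fin w → Tr F n) (g : ι → MvPolynomial (Fin n) F)
    (S : Finset (Fin n)),
    (∀ i q, Gd (𝔎.K n W0) K (T i q)) → (∀ i q, (T i q).rk ≤ t) →
    (∀ i, g i ∈ Algebra.adjoin F (Set.range fun q => (T i q).val)) → S.card ≤ c →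
    (∀ A : Finset (Fin n), A.card = r → Disjoint A S →
      {i | A ⊆ (g i).vars}.ncard ≤ κ) →
    ∑ i, g i ≠ 0 → ∑ i, g i ∉ V.I (m * (t + 1)) := by
  classical
  obtain ⟨m, hm⟩ := jetsO 𝔎 (K + 1) (W0 + 𝔎.cc) (κ * w) r
  refine ⟨m + (2 * r + c), ?_⟩
  intro n V t ι _ T g S hG ht hg hS hthin h0 hmem
  have hle : m * (t + 1) + (2 * r + c) ≤ (m + (2 * r + c)) * (t + 1) := by
    rw [add_mul]
    exact Nat.add_le_add_left (Nat.le_mul_of_pos_right _ (Nat.succ_pos t)) _
  by_cases hall : ∀ L : List (Fin n), L.Nodup → (∀ i ∈ L, i ∉ S) → L.length = r →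
      dl L (∑ i, g i) = 0
  · refine few_notMem V S r h0 hall (V.mono ?_ hmem)
    have := Nat.le_add_left (2 * r + c) (m * (t + 1))
    omega
  · push Not at hall
    obtain ⟨L, h1, h2, h3, h4⟩ := hall
    have h5 : dl L (∑ i, g i) ∈ V.I (m * (t + 1)) := by
      refine dl_mem V L (V.mono ?_ hmem)
      rw [h3]
      omega
    set J : Finset ι := Finset.univ.filter fun i => L.toFinset ⊆ (g i).vars with hJ
    have hJc : J.card ≤ κ := by
      have h6 := hthin L.toFinset (by rw [List.toFinset_card_of_nodup h1, h3]) (by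
        rw [Finset.disjoint_left]
        intro x hx
        exact h2 x (List.mem_toFinset.1 hx))
      rw [← Set.ncard_coe_finset, hJ]
      simpa using h6
    have h7 : dl L (∑ i, g i) = ∑ i ∈ J, dl L (g i) := by
      rw [dl_sum]
      symm
      apply Finset.sum_subset (Finset.subset_univ _)
      intro i _ hi
      rw [hJ, Finset.mem_filter] at hi
      push Not at hi
      have h8 := hi (Finset.mem_univ _)
      rw [Finset.not_subset] at h8
      obtain ⟨x, hx, hxg⟩ := h8
      exact dl_eq_zero (List.mem_toFinset.1 hx) (pderiv_eq_zero_of_notMem_vars hxg)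
    -- the formulas
    obtain ⟨e⟩ : Nonempty (J ↪ Fin κ) := by
      rw [Function.Embedding.nonempty_iff_card_le, Fintype.card_fin, Fintype.card_coe]
      exact hJc
    set U : Fin κ → Fin w → Tr F n := fun a =>
      if ha : ∃ i : J, e i = a then T ha.choose.1 else fun _ => .leaf (C 0) with hU
    have hUe : ∀ i : J, U (e i) = T i.1 := by
      intro i
      have ha : ∃ i' : J, e i' = e i := ⟨i, rfl⟩
      rw [hU]
      simp only
      rw [dif_pos ha]
      have := e.injective ha.choose_spec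
      rw [this]
    have hUG : ∀ a q, Gd (𝔎.K n (W0 + 𝔎.cc)) (K + 1) (U a q) ∧ (U a q).rk ≤ t := by
      intro a q
      by_cases ha : ∃ i : J, e i = a
      · obtain ⟨i, rfl⟩ := ha
        rw [hUe]
        refine ⟨⟨(hG _ q).1, (hG _ q).2.1.mono (𝔎.mono (Nat.le_add_right _ _)),
          fun x => ((hG _ q).2.2 x).trans (Nat.le_succ _)⟩, ht _ _⟩
      · have h9 : U a = fun _ => .leaf (C 0) := by rw [hU]; exact dif_neg ha
        rw [h9]
        refine ⟨⟨trivial, 𝔎.mono (Nat.le_add_left _ _) (𝔎.const_mem 0), fun x => ?_⟩,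
          Nat.zero_le _⟩
        rw [occ_const]
        exact Nat.zero_le _
    set ε := finProdFinEquiv (m := κ) (n := w) with hε
    have hLlen : ∀ i : Fin r, (i : ℕ) < L.length := fun i => by rw [h3]; exact i.isLt
    refine hm n V t (fun b => U (ε.symm b).1 (ε.symm b).2) (fun a => L.get ⟨a, hLlen a⟩)
      (dl L (∑ i, g i)) (fun b => (hUG _ _).1) (fun b => (hUG _ _).2) ?_ h4 h5
    rw [h7]
    refine Subalgebra.sum_mem _ fun i hi => ?_
    have h10 : g i ∈ Algebra.adjoin F (⋃ q, Set.range
        (jet (fun a : Fin r => L.get ⟨a, hLlen a⟩) (T i q).val 0)) := by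
      refine Algebra.adjoin_mono ?_ (hg i)
      rintro _ ⟨q, rfl⟩
      exact Set.mem_iUnion.2 ⟨q, ⟨(), rfl⟩⟩
    have h11 := dl_jets (fun q => (T i q).val) (fun a : Fin r => L.get ⟨a, hLlen a⟩) L ?_ 0 h10
    · refine Algebra.adjoin_mono ?_ h11
      apply Set.iUnion_subset
      intro q
      refine (jet_range_mono _ _ (show 0 + L.length ≤ r by omega)).trans ?_
      refine Set.Subset.trans ?_ (Set.subset_iUnion _ (ε (e ⟨i, hi⟩, q)))
      simp only [Equiv.symm_apply_apply, hUe]
      exact le_rfl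
    · intro x hx
      obtain ⟨a, ha, rfl⟩ := List.getElem_of_mem hx
      exact ⟨⟨a, by omega⟩, rfl⟩

end thin

end Pool.Agent.TH668.Thin
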